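import Pool.Agent.N805.FL5

/-!
# The excess of `F(α, T)` over its conjectured value bounds its defect

Assume the Riemann hypothesis.  Montgomery's conjecture is essentially `F(α, T) = min(α, 1) + o(1)`
for `α > 0`.  Suppose that, in the mean over every fixed window, `F(α, T)` exceeds `min(α, 1)`
asymptotically by at most `ω(α)`, where `ω ≥ 0` is continuous and integrable.  Then, in the mean
over every fixed window `[a, b]`, it falls short of `min(α, 1)` by a total amount of at most
`∫_0^∞ ω`.  For `ω = 0`: the upper half of the conjecture implies the whole conjecture.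

Idea of the proof.  The diagonal pairs show that the sum of `(sin πRx / πRx)²` over the pairs (`x`
the normalised difference) is at least `1 - o(1)`; by Fourier inversion it is the pairing of `F`
with a tent of length `R`, whose value for `min(|α|, 1)` is `1 + O(1/R²)`; let `R → ∞`.  The case
`ω = 0` (which gives the equivalence) is contained in the starting file
`Pool.Agent.Y749.Rig.FFf`.
-/

open Filter Topology MeasureTheory
open Complex (I)

namespace Pool.Agent.Results.MP_00e05b_nt.ExcessBoundsDefect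

/-- the nontrivial zeros of `ζ` with ordinate in `(0, T]` -/
def zeros (T : ℝ) : Set ℂ :=
  {s : ℂ | 0 < s.re ∧ s.re < 1 ∧ 0 < s.im ∧ s.im ≤ T ∧ riemannZeta s = 0}

/-- the multiplicity of `s` as a zero of `ζ` -/
noncomputable def mult (s : ℂ) : ℕ := analyticOrderNatAt riemannZeta s

/-- `N(T; α, β)`: the number of ordered pairs of ordinates, with multiplicity, whose normalised
difference lies in `[α, β]` -/
noncomputable def N (T α β : ℝ) : ℕ :=
  ∑ᶠ s ∈ zeros T, ∑ᶠ s' ∈ {s' : ℂ | s' ∈ zeros T ∧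
    2 * Real.pi * α / Real.log T ≤ s.im - s'.im ∧ s.im - s'.im ≤ 2 * Real.pi * β / Real.log T},
      mult s * mult s'

/-- `(T / 2π) log T` -/
noncomputable def X (T : ℝ) : ℝ := T / (2 * Real.pi) * Real.log T

/-- the constant of the pair correlation conjecture, `∫_α^β (1 - (sin πu / πu)²) du + δ(α, β)` -/
noncomputable def P (α β : ℝ) : ℝ :=
  (∫ u in α..β, (1 - (Real.sin (Real.pi * u) / (Real.pi * u)) ^ 2)) +
    if α ≤ 0 ∧ 0 ≤ β then 1 else 0

/-- Montgomery's function `F(α, T)` -/
noncomputable def F (α T : ℝ) : ℂ :=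
  (X T : ℂ)⁻¹ * ∑ᶠ s ∈ zeros T, ∑ᶠ s' ∈ zeros T, (mult s : ℂ) * (mult s' : ℂ) *
    ((T : ℂ) ^ (I * α * (s.im - s'.im)) * (4 / (4 + (s.im - s'.im) ^ 2)))

/-- the pair correlation conjecture (which follows from Q1), for `T` tending to infinity along the filter `l` -/
def PairCorrelation (l : Filter ℝ) : Prop := ∀ α β : ℝ, α < β →
  Asymptotics.IsEquivalent l (fun T => (N T α β : ℝ)) (fun T => P α β * X T)

/-- Assume the Riemann hypothesis and let `T` tend to infinity along any filter `l` finer than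
`atTop` (for instance `atTop` itself, or any sequence tending to infinity).  (1) The pair
correlation conjecture holds along `l` if and only if `limsup ∫_a^b F(α, T) dα ≤ ∫_a^b min(α, 1) dα`
for all `0 < a < b`.  (2) If `ω ≥ 0` is continuous, integrable on `(0, ∞)` and
`limsup ∫_a^b F(α, T) dα ≤ ∫_a^b (min(α, 1) + ω(α)) dα` for all `0 < a < b`, then
`liminf ∫_a^b F(α, T) dα ≥ ∫_a^b min(α, 1) dα - ∫_0^∞ ω(α) dα` for all `0 < a < b`. -/
theorem result (hRH : RiemannHypothesis) (l : Filter ℝ) (hl : l ≤ atTop) :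
    (PairCorrelation l ↔ ∀ a b : ℝ, 0 < a → a < b → ∀ ε : ℝ, 0 < ε → ∀ᶠ T in l,
      ∫ α in a..b, (F α T).re ≤ (∫ α in a..b, min α 1) + ε) ∧
    (∀ ω : ℝ → ℝ, Continuous ω → (∀ x, 0 ≤ ω x) → IntegrableOn ω (Set.Ioi 0) →
      (∀ a b : ℝ, 0 < a → a < b → ∀ ε : ℝ, 0 < ε → ∀ᶠ T in l,
        ∫ α in a..b, (F α T).re ≤ (∫ α in a..b, (min α 1 + ω α)) + ε) →
      ∀ a b : ℝ, 0 < a → a < b → ∀ ε : ℝ, 0 < ε → ∀ᶠ T in l,
        (∫ α in a..b, min α 1) - (∫ α in Set.Ioi (0 : ℝ), ω α) - ε ≤
          ∫ α in a..b, (F α T).re) :=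
  Pool.Agent.N805.FL.excess_main hRH l hl

end Pool.Agent.Results.MP_00e05b_nt.ExcessBoundsDefect
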