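import Pool.Agent.N805.FL4

/-!
# Lower bounds for `F(α, T)` beyond `α = 1` together with repulsion imply pair correlation

Assume the Riemann hypothesis.  Montgomery's conjecture is essentially `F(α, T) = 1 + o(1)` for
`α ≥ 1`.  We show that its lower half (in the mean over every fixed window) together with the
vanishing of the density of the pairs of zeros at distance zero is equivalent to the conjecture.

Idea of the proof.  The sum of `(sin πRx / πRx)²` over the pairs (`x` the normalised difference) is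
the pairing of `F` with a tent of length `R`.  If `N(T; -β, β) ≤ (1 + κβ + o(1)) (T/2π) log T` for
small `β`, the sum is at most `1 + 3κ/R + O(1/R²)`, while Montgomery's theorem on `(-1, 1)` and the
lower bounds beyond `1` give at least `1` plus `(2/R) ∫ (F - 1)`; let `R → ∞`.  So `F` is at most
`1` in the mean as well, and then the pair correlation follows from the starting file
`Pool.Agent.Y749.Rig.FFf`.
-/

open Filter Topology
open Complex (I)

namespace Pool.Agent.Results.MP_103a5c_nt.LowerHalfAndRepulsion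

/-- the nontrivial zeros of `ζ` with ordinate in `(0, T]` -/
def zeros (T : ℝ) : Set ℂ :=
  {s : ℂ | 0 < s.re ∧ s.re < 1 ∧ 0 < s.im ∧ s.im ≤ T ∧ riemannZeta s = 0}

/-- the multiplicity of `s` as a zero of `ζ` -/
noncomputable def mult (s : ℂ) : ℕ := analyticOrderNatAt riemannZeta s

/-- `N(T; α, β)`: the number of ordered pairs of ordinates, with multiplicity, whose normalised
difference lies in `[α, β]` -/
noncomputable def N (T α β : ℝ) : ℕ :=
  ∑ᶠ s ∈ zeros T, ∑ᶠ s' ∈ {s' : ℂ | s' ∈ zeros T ∧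
    2 * Real.pi * α / Real.log T ≤ s.im - s'.im ∧ s.im - s'.im ≤ 2 * Real.pi * β / Real.log T},
      mult s * mult s'

/-- `(T / 2π) log T` -/
noncomputable def X (T : ℝ) : ℝ := T / (2 * Real.pi) * Real.log T

/-- the constant of the conjecture, `∫_α^β (1 - (sin πu / πu)²) du + δ(α, β)` -/
noncomputable def P (α β : ℝ) : ℝ :=
  (∫ u in α..β, (1 - (Real.sin (Real.pi * u) / (Real.pi * u)) ^ 2)) +
    if α ≤ 0 ∧ 0 ≤ β then 1 else 0

/-- Montgomery's function `F(α, T)` -/
noncomputable def F (α T : ℝ) : ℂ :=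
  (X T : ℂ)⁻¹ * ∑ᶠ s ∈ zeros T, ∑ᶠ s' ∈ zeros T, (mult s : ℂ) * (mult s' : ℂ) *
    ((T : ℂ) ^ (I * α * (s.im - s'.im)) * (4 / (4 + (s.im - s'.im) ^ 2)))

/-- the conjecture Q1, for `T` tending to infinity along the filter `l` -/
def PairCorrelation (l : Filter ℝ) : Prop := ∀ α β : ℝ, α < β →
  Asymptotics.IsEquivalent l (fun T => (N T α β : ℝ)) (fun T => P α β * X T)

/-- in the mean over every fixed window `[a, b]`, `a ≥ 1`, the lower limit of `F` is at least `1` -/
def LowerMeans (l : Filter ℝ) : Prop := ∀ a b : ℝ, 1 ≤ a → a < b → ∀ ε : ℝ, 0 < ε →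
  ∀ᶠ T in l, (b - a) - ε ≤ ∫ α in a..b, (F α T).re

/-- `N(T; -β, β) ≤ (1 + κ β) (T / 2π) log T` for every `κ > 0`, all small `β > 0` and all large
`T` -/
def Repulsion (l : Filter ℝ) : Prop := ∀ κ : ℝ, 0 < κ → ∃ β₀ : ℝ, 0 < β₀ ∧
  ∀ β : ℝ, 0 < β → β ≤ β₀ → ∀ᶠ T in l, (N T (-β) β : ℝ) ≤ (1 + κ * β) * X T

/-- Assume the Riemann hypothesis and let `T` tend to infinity along any filter `l` finer than
`atTop` (for instance `atTop` itself, or any sequence tending to infinity).  The pair correlation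
conjecture is equivalent to the lower bounds for the means of `F(α, T)`, `α ≥ 1`, together with the
repulsion `N(T; -β, β) ≤ (1 + o(β)) (T/2π) log T`.  Moreover if the lower bounds for the means hold
and `N(T; -β, β) ≤ (1 + κβ + o(1)) (T/2π) log T` for all `0 < β ≤ β₀`, then the means satisfy the
upper bounds `∫_a^b F(α, T) dα ≤ (b - a) + 3κ/2 + o(1)` for all `1 ≤ a < b`. -/
theorem result (hRH : RiemannHypothesis) (l : Filter ℝ) (hl : l ≤ atTop) :
    (PairCorrelation l ↔ LowerMeans l ∧ Repulsion l) ∧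
    (LowerMeans l → ∀ κ β₀ : ℝ, 0 ≤ κ → 0 < β₀ →
      (∀ β : ℝ, 0 < β → β ≤ β₀ → ∀ ε : ℝ, 0 < ε → ∀ᶠ T in l,
        (N T (-β) β : ℝ) ≤ (1 + κ * β + ε) * X T) →
      ∀ a b : ℝ, 1 ≤ a → a < b → ∀ ε : ℝ, 0 < ε → ∀ᶠ T in l,
        ∫ α in a..b, (F α T).re ≤ (b - a) + 3 / 2 * κ + ε) :=
  Pool.Agent.N805.FL.lower_main hRH l hl

end Pool.Agent.Results.MP_103a5c_nt.LowerHalfAndRepulsion
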