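import Pool.Agent.R846.NC.Zeta
import Pool.Agent.Results.MP_7eacff_nt.MeanDeviation

/-!
# The gaps between the zeros of zeta are negatively correlated

Assume the Riemann hypothesis, and let `δ n` be the unfolded gaps of the problem, of mean value `1`.
Let `cov k N` be the empirical covariance, over `n ≤ N`, of the gaps `δ n` and `δ (n + k)`.  We show
that the covariances satisfy the sum rule `cov 0 + 2 ∑_{k ≥ 1} cov k = 0` (in the Cesàro sense, with
a rate), as for the eigenvalues of random unitary matrices, that the variance `cov 0` is bounded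
below, and so that the gaps are negatively correlated: there are a fixed `K` and a fixed `κ > 0` such
that for every large `N` one of the covariances at the lags `1, …, K` is at most `-κ`.  In
particular the gaps, in no subsequence of the `N`, look like independent variables.
-/

open Filter Set

namespace Pool.Agent.Results.MP_7eacff_nt.NegativeCorrelation

/-- multiplicity of `s` as a zero of the Riemann zeta function (order of vanishing at `s`) -/
noncomputable def zmult (s : ℂ) : ℕ := analyticOrderNatAt riemannZeta s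

/-- the number of nontrivial zeros of `ζ` with ordinate in `(0, t]`, with multiplicity -/
noncomputable def NZ (t : ℝ) : ℕ :=
  ∑ᶠ s ∈ {s : ℂ | riemannZeta s = 0 ∧ 0 < s.re ∧ s.re < 1 ∧ 0 < s.im ∧ s.im ≤ t}, zmult s

/-- for `n ≥ 1`: the `n`-th positive ordinate `γ n` of a nontrivial zero of `ζ`, the ordinates being
listed in nondecreasing order and repeated according to multiplicity -/
noncomputable def γ (n : ℕ) : ℝ := sInf {t : ℝ | n ≤ NZ t}

/-- the unfolded consecutive gaps `δ_n = (γ_{n+1} - γ_n) / 2π · log (γ_n / 2π)` -/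
noncomputable def δ (n : ℕ) : ℝ := (γ (n + 1) - γ n) / (2 * Real.pi) * Real.log (γ n / (2 * Real.pi))

/-- the empirical covariance of the gaps at the lag `k`: the mean over `1 ≤ n ≤ N` of
`(δ_n - 1) (δ_{n+k} - 1)` (the mean value of the gaps is `1`) -/
noncomputable def cov (k N : ℕ) : ℝ :=
  (1 / N : ℝ) * ∑ n ∈ Finset.Icc 1 N, (δ n - 1) * (δ (n + k) - 1)

theorem δ_eq (n : ℕ) : δ n = Pool.Agent.Y743.LR.dl n := by
  have e : δ n = (SG.ord (n + 1) - SG.ord n) / (2 * Real.pi) *
    Real.log (SG.ord n / (2 * Real.pi)) := rfl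
  rw [e]
  unfold Pool.Agent.Y743.LR.dl
  ring

/-- On the Riemann hypothesis: (1) the sum rule for the covariances of the gaps; (2) the variance of
the gaps is at least `1/25`; (3) for every `c < 1/50` the total covariance of a gap with the `m`
following ones is at most `-c` for all large `m`; (4) negative correlation at a bounded lag. -/
theorem result (RH : RiemannHypothesis) :
    (∃ V : ℝ, ∀ m : ℕ, 1 ≤ m → ∀ᶠ N : ℕ in atTop,
      |cov 0 N + 2 * ∑ k ∈ Finset.Ico 1 m, (1 - (k : ℝ) / m) * cov k N| ≤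
        V * (1 + Real.log m) ^ 2 / m) ∧
    (∀ᶠ N : ℕ in atTop, 1 / 25 ≤ cov 0 N) ∧
    (∀ c : ℝ, c < 1 / 50 → ∃ m₀ : ℕ, 2 ≤ m₀ ∧ ∀ m : ℕ, m₀ ≤ m → ∀ᶠ N : ℕ in atTop,
      ∑ k ∈ Finset.Ico 1 m, (1 - (k : ℝ) / m) * cov k N ≤ -c) ∧
    ∃ (K : ℕ) (κ : ℝ), 0 < κ ∧ ∀ᶠ N : ℕ in atTop, ∃ k : ℕ, 1 ≤ k ∧ k ≤ K ∧ cov k N ≤ -κ := by
  have hfun : (fun n => Pool.Agent.Y743.LR.dl n - 1) = fun n => δ n - 1 :=
    funext fun n => by rw [δ_eq]
  have hg := R846.NC.logGrowth (H177.Lat.rhs_of RH)
  obtain ⟨V, hv⟩ := R846.NC.smallVar (H177.Lat.rhs_of RH)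
  rw [hfun] at hg hv
  have hcov : ∀ k N : ℕ, R846.NC.cov (fun n => δ n - 1) k N = cov k N := fun k N => rfl
  have hvar : ∀ᶠ N : ℕ in atTop, (1 / 25 : ℝ) * N ≤ ∑ n ∈ Finset.Icc 1 N, (δ n - 1) ^ 2 := by
    filter_upwards [MeanDeviation.result RH, eventually_gt_atTop 0] with N hN hN0
    have hNr : (0 : ℝ) < N := by exact_mod_cast hN0
    have h1 : 0.201 ≤ (1 / N : ℝ) * ∑ n ∈ Finset.Icc 1 N, |δ n - 1| := hN.1
    rw [one_div, inv_mul_eq_div, le_div_iff₀ hNr] at h1
    have h2 : ∀ n ∈ Finset.Icc 1 N, 2 * 0.2 * |δ n - 1| - 0.04 ≤ (δ n - 1) ^ 2 := by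
      intro n _
      have h3 := sq_nonneg (|δ n - 1| - 0.2)
      have h4 := sq_abs (δ n - 1)
      nlinarith
    have h3 := Finset.sum_le_sum h2
    rw [Finset.sum_sub_distrib, ← Finset.mul_sum, Finset.sum_const, Nat.card_Icc,
      Nat.add_sub_cancel, nsmul_eq_mul] at h3
    nlinarith
  refine ⟨⟨V + 1, fun m hm => ?_⟩, ?_, fun c hc => ?_, ?_⟩
  · exact R846.NC.rule hg hv m hm
  · filter_upwards [hvar, eventually_gt_atTop 0] with N hN hN0
    have hNr : (0 : ℝ) < N := by exact_mod_cast hN0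
    unfold cov
    rw [one_div (N : ℝ), inv_mul_eq_div, le_div_iff₀ hNr]
    refine hN.trans (le_of_eq ?_)
    refine Finset.sum_congr rfl fun n _ => ?_
    rw [add_zero, sq]
  · exact R846.NC.total_neg hg hv hvar c (by linarith)
  · exact R846.NC.exists_neg hg hv hvar (by norm_num)

end Pool.Agent.Results.MP_7eacff_nt.NegativeCorrelation
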